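import Mathlib
import Pool.Agent.K4H48.ST.MainJ

set_option autoImplicit false

open Filter Topology Polynomial MeasureTheory Metric

namespace Pool.Agent.Results.MP_28f8a1_an.CriticalStrata

/-- The polynomial as a self-map of the plane. -/
def map (T : ℂ[X]) : ℂ → ℂ := fun w : ℂ => T.eval w

/-- The orbit of `z` escapes to infinity. -/
def Escapes (T : ℂ[X]) (z : ℂ) : Prop :=
  Tendsto (fun k : ℕ => ‖(map T)^[k] z‖) atTop atTop

/-- The orbit of `z` is attracted by a sink (attracting periodic point) of `T`. -/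
def Attracted (T : ℂ[X]) (z : ℂ) : Prop :=
  ∃ n : ℕ, 0 < n ∧ ∃ x : ℂ, (map T)^[n] x = x ∧ ‖deriv ((map T)^[n]) x‖ < 1 ∧
    Tendsto (fun k : ℕ => (map T)^[n * k] z) atTop (𝓝 x)

/-- The point `z` belongs to the basin of a parabolic cycle of `T`. -/
def InParabolicBasin (T : ℂ[X]) (z : ℂ) : Prop :=
  ∃ (n : ℕ) (x : ℂ), 0 < n ∧ (map T)^[n] x = x ∧ deriv ((map T)^[n]) x = 1 ∧
    Tendsto (fun k : ℕ => (map T)^[n * k] z) atTop (𝓝 x) ∧ ∀ k : ℕ, (map T)^[n * k] z ≠ x

/-- The point `z` is mapped by an iterate of `T` into a disc on which an iterate of `T` is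
conjugate to an irrational rotation (a Siegel disc). -/
def InSiegelDisc (T : ℂ[X]) (z : ℂ) : Prop :=
  ∃ (m n : ℕ) (r : ℝ) (h : ℂ → ℂ) (ρ : ℂ), 0 < n ∧ 0 < r ∧ ‖ρ‖ = 1 ∧
    (∀ k : ℕ, 0 < k → ρ ^ k ≠ 1) ∧ DifferentiableOn ℂ h (ball 0 r) ∧ Set.InjOn h (ball 0 r) ∧
    (∀ w ∈ ball (0 : ℂ) r, (map T)^[n] (h w) = h (ρ * w)) ∧ (map T)^[m] z ∈ h '' ball 0 r

/-- The points which are in none of the basins and not mapped into a Siegel disc. By Sullivan's
theorem and the classification of periodic Fatou components this is the Julia set of `T`. -/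
def Js (T : ℂ[X]) : Set ℂ :=
  {z : ℂ | ¬ (Escapes T z ∨ Attracted T z ∨ InParabolicBasin T z ∨ InSiegelDisc T z)}

/-- `S` is hyperbolic: every critical point escapes or is attracted by a sink. -/
def Hyperbolic (S : ℂ[X]) : Prop :=
  ∀ c : ℂ, (derivative S).eval c = 0 → Escapes S c ∨ Attracted S c

/-- `T` has degree `n + 1`, and `c 0, …, c (n - 1)` are its critical points, listed with
multiplicity. -/
def CritList {n : ℕ} (T : ℂ[X]) (c : Fin n → ℂ) : Prop :=
  T.natDegree = n + 1 ∧
    derivative T = C (((n : ℂ) + 1) * T.leadingCoeff) * ∏ i, (X - C (c i))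

theorem Js_eq (T : ℂ[X]) : Js T = Pool.Agent.H713R5.QJ.JS T := by
  ext z
  have : (Pool.Agent.H713R5.QJ.Good (Pool.Agent.H713R5.QJ.ev T) z ∨
      Pool.Agent.H713R5.QJ.Para (Pool.Agent.H713R5.QJ.ev T) z ∨
      Pool.Agent.H713R5.QJ.Sieg (Pool.Agent.H713R5.QJ.ev T) z) ↔
      (Escapes T z ∨ Attracted T z ∨ InParabolicBasin T z ∨ InSiegelDisc T z) :=
    or_assoc
  exact (not_congr this).symm

theorem hyp_of {n : ℕ} {S : ℂ[X]} {s : Fin n → ℂ} (h : CritList S s)
    (hg : ∀ i, Pool.Agent.H713R5.QJ.Good (Pool.Agent.H713R5.QJ.ev S) (s i)) : Hyperbolic S := by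
  intro c hc
  have hlc : S.leadingCoeff ≠ 0 := by
    rw [Ne, leadingCoeff_eq_zero]
    rintro rfl
    have := h.1
    simp at this
  rw [h.2, eval_mul, eval_C, eval_prod, mul_eq_zero] at hc
  rcases hc with hc | hc
  · exact absurd hc (mul_ne_zero (Nat.cast_add_one_ne_zero n) hlc)
  · obtain ⟨i, -, hi⟩ := Finset.prod_eq_zero_iff.mp hc
    rw [eval_sub, eval_X, eval_C, sub_eq_zero] at hi
    subst hi
    exact hg i

/-- The area-distance theorem in the strata of polynomials with prescribed coincidences between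
critical points (multiplicities) and between critical values.
(1) Let `T` be a polynomial of degree `n + 1` with critical points `c i` (listed with multiplicity).
For every `ε > C * sqrt (area (Js T))` there is a hyperbolic polynomial `S` of the same degree, with
the same two leading coefficients and `ε`-close to `T`, with critical points `s i` such that critical
points of `T` which coincide stay equal (`c i = c j → s i = s j`) and critical values of `T` which
coincide stay equal. The constant `C` depends only on the degree and on bounds for the coefficients.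
(2) If the Julia set of `T` has zero area, then `T` is a limit of hyperbolic polynomials with exactly
the same coincidences between critical points and between critical values (in particular, with the
same multiplicities of the critical points and the same number of critical values), and the critical
points are close, too.

So the theorem holds inside the family of polynomials with one, with two, ..., with `k` distinct
critical points of any multiplicities, inside the families of polynomials with at most `k` critical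
values, and so on. -/
theorem result :
    (∀ (n : ℕ) (A : ℝ), 1 ≤ n → 0 < A → ∃ C : ℝ, 0 < C ∧
      ∀ (T : ℂ[X]) (c : Fin n → ℂ), CritList T c → (∀ j : ℕ, ‖T.coeff j‖ ≤ A) →
        1 / A ≤ ‖T.leadingCoeff‖ → volume (Js T) < ⊤ ∧
        ∀ ε : ℝ, C * Real.sqrt (volume (Js T)).toReal < ε →
          ∃ (S : ℂ[X]) (s : Fin n → ℂ), CritList S s ∧ Hyperbolic S ∧
            S.leadingCoeff = T.leadingCoeff ∧ S.coeff n = T.coeff n ∧
            (∀ j : ℕ, ‖S.coeff j - T.coeff j‖ < ε) ∧
            (∀ i j, c i = c j → s i = s j) ∧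
            ∀ i j, T.eval (c i) = T.eval (c j) → S.eval (s i) = S.eval (s j)) ∧
    (∀ (n : ℕ) (T : ℂ[X]) (c : Fin n → ℂ), 1 ≤ n → CritList T c → volume (Js T) = 0 →
      ∀ ε : ℝ, 0 < ε →
        ∃ (S : ℂ[X]) (s : Fin n → ℂ), CritList S s ∧ Hyperbolic S ∧
          S.leadingCoeff = T.leadingCoeff ∧ S.coeff n = T.coeff n ∧
          (∀ j : ℕ, ‖S.coeff j - T.coeff j‖ < ε) ∧ (∀ i, ‖s i - c i‖ < ε) ∧
          (∀ i j, c i = c j ↔ s i = s j) ∧
          ∀ i j, T.eval (c i) = T.eval (c j) ↔ S.eval (s i) = S.eval (s j)) := by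
  have h1 : ∀ (n : ℕ) (A : ℝ), 1 ≤ n → 0 < A → ∃ C : ℝ, 0 < C ∧
      ∀ (T : ℂ[X]) (c : Fin n → ℂ), CritList T c → (∀ j : ℕ, ‖T.coeff j‖ ≤ A) →
        1 / A ≤ ‖T.leadingCoeff‖ → volume (Js T) < ⊤ ∧
        ∀ ε : ℝ, C * Real.sqrt (volume (Js T)).toReal < ε → Pool.Agent.K4H48.ST.Cn T c ε := by
    intro n A hn hA
    obtain ⟨C, hC, h⟩ := Pool.Agent.K4H48.ST.mainJ n (max A 1) hn (le_max_right _ _)
    refine ⟨C, hC, fun T c hT hTA hTl => ⟨?_, fun ε hε => ?_⟩⟩
    · rw [Js_eq]
      exact Pool.Agent.H713R5.QJ.VFIN.js_fin T (by rw [hT.1]; omega)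
    · rw [Js_eq] at hε
      refine h T c hT (fun j => (hTA j).trans (le_max_left _ _)) (le_trans ?_ hTl) ε hε
      exact one_div_le_one_div_of_le hA (le_max_left _ _)
  refine ⟨fun n A hn hA => ?_, fun n T c hn hT hJ => ?_⟩
  · obtain ⟨C, hC, h⟩ := h1 n A hn hA
    refine ⟨C, hC, fun T c hT hTA hTl => ⟨(h T c hT hTA hTl).1, fun ε hε => ?_⟩⟩
    obtain ⟨S, s, k1, k2, k3, k4, k5, k6, k7⟩ := (h T c hT hTA hTl).2 ε hε
    exact ⟨S, s, k1, hyp_of k1 k5, k2, k3, k4, k6, k7⟩
  · have hlc : T.leadingCoeff ≠ 0 := by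
      rw [Ne, leadingCoeff_eq_zero]
      rintro rfl
      have := hT.1
      simp at this
    obtain ⟨K, hK, hKb⟩ := Pool.Agent.K4H48.ST.exists_coeff_bd T
    have hlp : 0 < ‖T.leadingCoeff‖ := norm_pos_iff.2 hlc
    obtain ⟨C, hC, h⟩ := h1 n (max K (1 / ‖T.leadingCoeff‖)) hn
      (lt_max_of_lt_right (by positivity))
    have h2 : ∀ ε : ℝ, 0 < ε → Pool.Agent.K4H48.ST.Cn T c ε := by
      intro ε hε
      refine (h T c hT (fun j => (hKb j).trans (le_max_left _ _)) ?_).2 ε ?_
      · rw [one_div_le (lt_max_of_lt_right (by positivity)) hlp]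
        exact le_max_right _ _
      · rw [hJ]
        simpa using hε
    intro ε hε
    obtain ⟨S, s, k1, k2, k3, k4, k5, k6, k7, k8⟩ := Pool.Agent.K4H48.ST.limit_pat hT h2 ε hε
    exact ⟨S, s, k1, hyp_of k1 k6, k2, k3, k4, k5, k7, k8⟩

end Pool.Agent.Results.MP_28f8a1_an.CriticalStrata
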