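import Mathlib
import Pool.Agent.K4H45.LL.Main
import Pool.Agent.K4H45.LL.Uni2
import Pool.Agent.H713R3.ZA.TSURJ

/-!
# The linear area law

A polynomial with connected filled Julia set `K` is within `C * area K` (LINEAR in the area) of the
Shilov boundary of the connectedness locus and of hyperbolic polynomials of every type. For the
unicritical polynomials `z ^ d + c` there is an explicit inequality; in particular the distance of
a point `c` of the Mandelbrot set to its complement is at most `2 / π` times the area of the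
filled Julia set of `z ^ 2 + c`.

The proof: for each finite level the Grunsky operators of the complements of the sublevel sets are
contractions depending holomorphically on the parameter, and the defects of the Grunsky operator of
`K` on the first basis vectors are integrals over `K`.
-/

set_option autoImplicit false

open Filter Topology Polynomial MeasureTheory

namespace Pool.Agent.Results.MP_28f8a1_an.LinearAreaLaw

/-- The polynomial as a self-map of the plane. -/
def map (T : ℂ[X]) : ℂ → ℂ := fun w : ℂ => T.eval w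

/-- The orbit of `z` escapes to infinity. -/
def Escapes (T : ℂ[X]) (z : ℂ) : Prop :=
  Tendsto (fun k : ℕ => ‖(map T)^[k] z‖) atTop atTop

/-- The filled Julia set: the points which do not escape. -/
def K (T : ℂ[X]) : Set ℂ := {z : ℂ | ¬ Escapes T z}

/-- The derivative of `poly a x`: `a (n + 1) ∏ (X - x i)`. -/
noncomputable def der (a : ℂ) {n : ℕ} (x : Option (Fin n) → ℂ) : ℂ[X] :=
  C (a * ((n : ℂ) + 1)) * ∏ i : Fin n, (X - C (x (some i)))

/-- The polynomial with leading coefficient `a`, critical points `x (some i)` (`i < n`, with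
multiplicity) and constant term `x none`: the antiderivative of `der a x` with this constant
term. -/
noncomputable def poly (a : ℂ) {n : ℕ} (x : Option (Fin n) → ℂ) : ℂ[X] :=
  C (x none) + ∑ j ∈ Finset.range (n + 1), monomial (j + 1) ((der a x).coeff j / ((j : ℂ) + 1))

/-- The connectedness locus: the sum of the critical points is `s`, and none of them escapes. -/
def Locus (a : ℂ) (n : ℕ) (s : ℂ) : Set (Option (Fin n) → ℂ) :=
  {x | ∑ i : Fin n, x (some i) = s ∧ ∀ i : Fin n, ¬ Escapes (poly a x) (x (some i))}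

/-- `Γ` is a closed boundary of `M` for the functions holomorphic near `M`: for each such function
`F` the maximum of `‖F‖` over `M` is attained on the closed set `Γ ⊆ M`. -/
def IsClosedBoundary {n : ℕ} (M Γ : Set (Option (Fin n) → ℂ)) : Prop :=
  IsClosed Γ ∧ Γ ⊆ M ∧ ∀ (Ω : Set (Option (Fin n) → ℂ)) (F : (Option (Fin n) → ℂ) → ℂ),
    IsOpen Ω → M ⊆ Ω → DifferentiableOn ℂ F Ω → ∀ x ∈ M, ∃ y ∈ Γ, ‖F x‖ ≤ ‖F y‖

/-- The Shilov boundary: the intersection of all closed boundaries. -/
def Shilov {n : ℕ} (M : Set (Option (Fin n) → ℂ)) : Set (Option (Fin n) → ℂ) :=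
  {x | x ∈ M ∧ ∀ Γ, IsClosedBoundary M Γ → x ∈ Γ}

/-- `S = poly a x` is hyperbolic of type `τ`: the points `z j` (`j < k`) are sinks with
`S^(p j) (z j) = z j`, the critical point `x i` escapes if `τ i = none`, and it is attracted by the
sink `z j` if `τ i = some j`. -/
structure HasType (a : ℂ) {n k : ℕ} (x : Option (Fin n) → ℂ) (τ : Fin n → Option (Fin k))
    (p : Fin k → ℕ) (z : Fin k → ℂ) : Prop where
  sink : ∀ j, 0 < p j ∧ (map (poly a x))^[p j] (z j) = z j ∧
    ‖deriv ((map (poly a x))^[p j]) (z j)‖ < 1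
  esc : ∀ i, τ i = none → Escapes (poly a x) (x (some i))
  att : ∀ i j, τ i = some j →
    Tendsto (fun l : ℕ => (map (poly a x))^[p j * l] (x (some i))) atTop (𝓝 (z j))

/-- `S` is hyperbolic: every critical point escapes or is attracted by a sink. -/
def Hyperbolic (S : ℂ[X]) : Prop :=
  ∀ c : ℂ, (derivative S).eval c = 0 → Escapes S c ∨
    ∃ n : ℕ, 0 < n ∧ ∃ x : ℂ, (map S)^[n] x = x ∧ ‖deriv ((map S)^[n]) x‖ < 1 ∧
      Tendsto (fun l : ℕ => (map S)^[n * l] c) atTop (𝓝 x)

theorem poly_eq (a : ℂ) {n : ℕ} (x : Option (Fin n) → ℂ) :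
    poly a x = Pool.Agent.H713R3.ZA.fam a n x := rfl

theorem locus_eq (a : ℂ) (n : ℕ) (s : ℂ) : Locus a n s = Pool.Agent.K4H45.SB.MC a n s := rfl

theorem shilov_eq {n : ℕ} (M : Set (Option (Fin n) → ℂ)) :
    Shilov M = Pool.Agent.K4H45.SB.Sh M := rfl

theorem hasType_of {a : ℂ} {n k : ℕ} {τ : Fin n → Option (Fin k)} {N₀ : ℕ}
    {x : Option (Fin n) → ℂ} {p : Fin k → ℕ} {z : Fin k → ℂ} {r : Fin k → Fin n}
    (h : Pool.Agent.W820.BM.Concl a n k τ N₀ x p z r) : HasType a x τ p z :=
  ⟨fun j => ⟨(h.prime j).1.pos, h.fix j, h.mul j⟩, h.esc, h.att⟩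

theorem HasType.hyperbolic {a : ℂ} (ha : a ≠ 0) {n k : ℕ} {x : Option (Fin n) → ℂ}
    {τ : Fin n → Option (Fin k)} {p : Fin k → ℕ} {z : Fin k → ℂ} (h : HasType a x τ p z) :
    Hyperbolic (poly a x) := by
  intro c hc
  rw [poly_eq, Pool.Agent.H713R3.ZA.derivative_fam] at hc
  unfold Pool.Agent.H713R3.ZA.dfam at hc
  rw [eval_mul, eval_C, eval_prod, mul_eq_zero] at hc
  rcases hc with hc | hc
  · exact absurd hc (mul_ne_zero ha (Nat.cast_add_one_ne_zero n))
  · obtain ⟨i, -, hi⟩ := Finset.prod_eq_zero_iff.mp hc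
    rw [eval_sub, eval_X, eval_C, sub_eq_zero] at hi
    subst hi
    rcases hτ : τ i with _ | j
    · exact Or.inl (h.esc i hτ)
    · exact Or.inr ⟨p j, (h.sink j).1, z j, (h.sink j).2.1, (h.sink j).2.2, h.att i j hτ⟩

/-- Let `n ≥ 1` and `a ≠ 0`.

(0) The polynomials `poly a x` have degree `n + 1`, leading coefficient `a`, derivative
`a (n + 1) ∏ (X - x i)` and constant term `x none`, and they are all the polynomials of degree
`n + 1` with leading coefficient `a`.

(1) For each bound `b` there is a constant `C` such that the following holds for all `s` with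
`‖s‖ ≤ b` and all `x` in the connectedness locus `Locus a n s`. The area of the filled Julia set
`K (poly a x)` is finite, and for every `ε > C * area (K (poly a x))`:
(1a) some point of the Shilov boundary of `Locus a n s` has all its coefficients within `ε` of those
of `poly a x`;
(1b) for EVERY assignment `τ` of the critical points to `k` sinks or to infinity and every `N` there
is a hyperbolic polynomial `poly a y` of type `τ` whose coefficients are within `ε` of those of
`poly a x`, with the same leading coefficient and sum of critical points, whose sinks `z j` have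
exact periods `p j ≥ N` which are distinct primes.

(2) Unicritical polynomials: let `c : ℂ` and `ε > 0` be such that `(π ε / (n + 1)) ^ 2` is greater than
the product of the area of the filled Julia set of `z ^ (n + 1) + c` and the integral of
`|z| ^ (2 (n - 1))` over it. Then for some `c'` with `|c' - c| < ε` the critical point `0` of
`z ^ (n + 1) + c'` escapes.

(3) The Mandelbrot set: if `ε > (2 / π) * area (K (z ^ 2 + c))` then for some `c'` with `|c' - c| < ε`
the critical point of `z ^ 2 + c'` escapes. -/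
theorem result (n : ℕ) (hn : 1 ≤ n) (a : ℂ) (ha : a ≠ 0) :
    ((∀ x : Option (Fin n) → ℂ, (poly a x).natDegree = n + 1 ∧ (poly a x).leadingCoeff = a ∧
      derivative (poly a x) = C (a * ((n : ℂ) + 1)) * ∏ i : Fin n, (X - C (x (some i))) ∧
      (poly a x).eval 0 = x none) ∧
      ∀ T : ℂ[X], T.natDegree = n + 1 → T.leadingCoeff = a →
        ∃ x : Option (Fin n) → ℂ, poly a x = T) ∧
    (∀ b : ℝ, ∃ C : ℝ, 0 < C ∧ ∀ s : ℂ, ‖s‖ ≤ b → ∀ x ∈ Locus a n s,
      volume (K (poly a x)) < ⊤ ∧ ∀ ε : ℝ, C * (volume (K (poly a x))).toReal < ε →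
        (∃ y ∈ Shilov (Locus a n s), ∀ j : ℕ, ‖(poly a y).coeff j - (poly a x).coeff j‖ < ε) ∧
        ∀ (k : ℕ) (τ : Fin n → Option (Fin k)), (∀ j, ∃ i, τ i = some j) → ∀ N : ℕ,
        ∃ (y : Option (Fin n) → ℂ) (p : Fin k → ℕ) (z : Fin k → ℂ),
          (∀ j : ℕ, ‖(poly a y).coeff j - (poly a x).coeff j‖ < ε) ∧
          ∑ i : Fin n, y (some i) = s ∧ Hyperbolic (poly a y) ∧ HasType a y τ p z ∧
          Function.Injective p ∧ (∀ j, (p j).Prime ∧ N ≤ p j) ∧
          ∀ j, Function.minimalPeriod (map (poly a y)) (z j) = p j) ∧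
    (∀ (c : ℂ) (ε : ℝ), 0 < ε → ((n : ℝ) + 1) ^ 2 * ((volume (K (X ^ (n + 1) + C c))).toReal *
      ∫ z in K (X ^ (n + 1) + C c), ‖z‖ ^ (2 * (n - 1))) < (Real.pi * ε) ^ 2 →
      ∃ c' : ℂ, ‖c' - c‖ < ε ∧ Escapes (X ^ (n + 1) + C c') 0) ∧
    (∀ (c : ℂ) (ε : ℝ), 2 * (volume (K (X ^ 2 + C c))).toReal < Real.pi * ε →
      ∃ c' : ℂ, ‖c' - c‖ < ε ∧ Escapes (X ^ 2 + C c') 0) := by
  refine ⟨⟨fun x => ⟨?_, ?_, ?_, ?_⟩, fun T hT hTa => ?_⟩, fun b => ?_, fun c ε hε h => ?_,
    fun c ε h => ?_⟩
  · exact Pool.Agent.H713R3.ZA.natDegree_fam ha n x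
  · exact Pool.Agent.W820.BM.leadingCoeff_fam ha n x
  · exact Pool.Agent.H713R3.ZA.derivative_fam a n x
  · exact Pool.Agent.W806.BM.fam_zero a n x
  · obtain ⟨x, hx⟩ := Pool.Agent.H713R3.ZA.surj_holds n T hn hT
    refine ⟨x, ?_⟩
    rw [leadingCoeff, hT] at hTa
    rw [hTa] at hx
    exact hx
  · obtain ⟨C, hC, h⟩ := Pool.Agent.K4H45.LL.lin_shilov ha hn (abs_nonneg b)
    refine ⟨C, hC, fun s hs x hx => ?_⟩
    obtain ⟨h1, h2⟩ := h s (hs.trans (le_abs_self b)) x hx
    refine ⟨h1, fun ε hε => ⟨h2 ε hε, fun k τ hτ N => ?_⟩⟩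
    obtain ⟨ε₁, h3, h4⟩ := exists_between hε
    obtain ⟨y₀, hy₀, hy₀x⟩ := h2 ε₁ h3
    obtain ⟨y, p, z, r, -, e2, e3, e4, e5⟩ :=
      Pool.Agent.K4H45.SB.sh_main ha hn hy₀ (sub_pos.2 h4) k τ hτ N
    refine ⟨y, p, z, fun j => ?_, e3, (hasType_of e4).hyperbolic ha, hasType_of e4, e4.inj,
      e4.prime, e5⟩
    have e7 : ‖(poly a y₀).coeff j - (poly a x).coeff j‖ < ε₁ := hy₀x j
    have e8 : (poly a y).coeff j - (poly a x).coeff j =
        ((poly a y).coeff j - (poly a y₀).coeff j) + ((poly a y₀).coeff j - (poly a x).coeff j) := by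
      ring
    rw [e8]
    have e9 := norm_add_le ((poly a y).coeff j - (poly a y₀).coeff j)
      ((poly a y₀).coeff j - (poly a x).coeff j)
    have e10 : ‖(poly a y).coeff j - (poly a y₀).coeff j‖ < ε - ε₁ := e2 j
    linarith
  · by_contra hcon
    push Not at hcon
    obtain ⟨-, h1⟩ := Pool.Agent.K4H45.LL.uni hn (c := c) hε (fun c' hc' => hcon c' hc')
    exact absurd h (not_lt.2 h1)
  · have hε : 0 < ε := by
      have h1 : 0 ≤ (volume (K (X ^ 2 + C c))).toReal := ENNReal.toReal_nonneg
      have h2 : 0 < Real.pi * ε := by linarith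
      exact (pos_iff_pos_of_mul_pos h2).1 Real.pi_pos
    by_contra hcon
    push Not at hcon
    obtain ⟨-, h1⟩ := Pool.Agent.K4H45.LL.quad (c := c) hε (fun c' hc' => hcon c' hc')
    exact absurd h (not_lt.2 h1)

end Pool.Agent.Results.MP_28f8a1_an.LinearAreaLaw
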