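import Mathlib
import Pool.Agent.K4H45.SB.Main

/-!
# Hyperbolic polynomials of every type are dense at the Shilov boundary of the connectedness locus

We consider critically marked polynomials: the parameter is `x = (x 1, …, x n; x none)`, the
critical points and the constant term, and `poly a x` is the polynomial of degree `n + 1` with
leading coefficient `a`, these critical points and this constant term. `Locus a n s` is the
connectedness locus: `x 1 + … + x n = s` (`s = 0` is the centred case) and no critical point escapes.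
The Shilov boundary of the connectedness locus is the support of the bifurcation measure
(Dujardin-Favre).
-/

set_option autoImplicit false

open Filter Topology Polynomial MeasureTheory

namespace Pool.Agent.Results.MP_28f8a1_an.ShilovBoundary

/-- The polynomial as a self-map of the plane. -/
def map (T : ℂ[X]) : ℂ → ℂ := fun w : ℂ => T.eval w

/-- The orbit of `z` escapes to infinity. -/
def Escapes (T : ℂ[X]) (z : ℂ) : Prop :=
  Tendsto (fun k : ℕ => ‖(map T)^[k] z‖) atTop atTop

/-- The filled Julia set: the points which do not escape. -/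
def K (T : ℂ[X]) : Set ℂ := {z : ℂ | ¬ Escapes T z}

/-- The derivative of `poly a x`: `a (n + 1) ∏ (X - x i)`. -/
noncomputable def der (a : ℂ) {n : ℕ} (x : Option (Fin n) → ℂ) : ℂ[X] :=
  C (a * ((n : ℂ) + 1)) * ∏ i : Fin n, (X - C (x (some i)))

/-- The polynomial with leading coefficient `a`, critical points `x (some i)` (`i < n`, with
multiplicity) and constant term `x none`: the antiderivative of `der a x` with this constant
term. -/
noncomputable def poly (a : ℂ) {n : ℕ} (x : Option (Fin n) → ℂ) : ℂ[X] :=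
  C (x none) + ∑ j ∈ Finset.range (n + 1), monomial (j + 1) ((der a x).coeff j / ((j : ℂ) + 1))

/-- The connectedness locus: the sum of the critical points is `s`, and none of them escapes. -/
def Locus (a : ℂ) (n : ℕ) (s : ℂ) : Set (Option (Fin n) → ℂ) :=
  {x | ∑ i : Fin n, x (some i) = s ∧ ∀ i : Fin n, ¬ Escapes (poly a x) (x (some i))}

/-- `Γ` is a closed boundary of `M` for the functions holomorphic near `M`: for each such function
`F` the maximum of `‖F‖` over `M` is attained on the closed set `Γ ⊆ M`. -/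
def IsClosedBoundary {n : ℕ} (M Γ : Set (Option (Fin n) → ℂ)) : Prop :=
  IsClosed Γ ∧ Γ ⊆ M ∧ ∀ (Ω : Set (Option (Fin n) → ℂ)) (F : (Option (Fin n) → ℂ) → ℂ),
    IsOpen Ω → M ⊆ Ω → DifferentiableOn ℂ F Ω → ∀ x ∈ M, ∃ y ∈ Γ, ‖F x‖ ≤ ‖F y‖

/-- The Shilov boundary: the intersection of all closed boundaries. -/
def Shilov {n : ℕ} (M : Set (Option (Fin n) → ℂ)) : Set (Option (Fin n) → ℂ) :=
  {x | x ∈ M ∧ ∀ Γ, IsClosedBoundary M Γ → x ∈ Γ}

/-- `S = poly a x` is hyperbolic of type `τ`: the points `z j` (`j < k`) are sinks with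
`S^(p j) (z j) = z j`, the critical point `x i` escapes if `τ i = none`, and it is attracted by the
sink `z j` if `τ i = some j`. -/
structure HasType (a : ℂ) {n k : ℕ} (x : Option (Fin n) → ℂ) (τ : Fin n → Option (Fin k))
    (p : Fin k → ℕ) (z : Fin k → ℂ) : Prop where
  sink : ∀ j, 0 < p j ∧ (map (poly a x))^[p j] (z j) = z j ∧
    ‖deriv ((map (poly a x))^[p j]) (z j)‖ < 1
  esc : ∀ i, τ i = none → Escapes (poly a x) (x (some i))
  att : ∀ i j, τ i = some j →
    Tendsto (fun l : ℕ => (map (poly a x))^[p j * l] (x (some i))) atTop (𝓝 (z j))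

/-- `S` is hyperbolic: every critical point escapes or is attracted by a sink. -/
def Hyperbolic (S : ℂ[X]) : Prop :=
  ∀ c : ℂ, (derivative S).eval c = 0 → Escapes S c ∨
    ∃ n : ℕ, 0 < n ∧ ∃ x : ℂ, (map S)^[n] x = x ∧ ‖deriv ((map S)^[n]) x‖ < 1 ∧
      Tendsto (fun l : ℕ => (map S)^[n * l] c) atTop (𝓝 x)

theorem poly_eq (a : ℂ) {n : ℕ} (x : Option (Fin n) → ℂ) :
    poly a x = Pool.Agent.H713R3.ZA.fam a n x := rfl

theorem locus_eq (a : ℂ) (n : ℕ) (s : ℂ) : Locus a n s = Pool.Agent.K4H45.SB.MC a n s := rfl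

theorem shilov_eq {n : ℕ} (M : Set (Option (Fin n) → ℂ)) :
    Shilov M = Pool.Agent.K4H45.SB.Sh M := rfl

theorem hasType_of {a : ℂ} {n k : ℕ} {τ : Fin n → Option (Fin k)} {N₀ : ℕ}
    {x : Option (Fin n) → ℂ} {p : Fin k → ℕ} {z : Fin k → ℂ} {r : Fin k → Fin n}
    (h : Pool.Agent.W820.BM.Concl a n k τ N₀ x p z r) : HasType a x τ p z :=
  ⟨fun j => ⟨(h.prime j).1.pos, h.fix j, h.mul j⟩, h.esc, h.att⟩

theorem HasType.hyperbolic {a : ℂ} (ha : a ≠ 0) {n k : ℕ} {x : Option (Fin n) → ℂ}
    {τ : Fin n → Option (Fin k)} {p : Fin k → ℕ} {z : Fin k → ℂ} (h : HasType a x τ p z) :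
    Hyperbolic (poly a x) := by
  intro c hc
  rw [poly_eq, Pool.Agent.H713R3.ZA.derivative_fam] at hc
  unfold Pool.Agent.H713R3.ZA.dfam at hc
  rw [eval_mul, eval_C, eval_prod, mul_eq_zero] at hc
  rcases hc with hc | hc
  · exact absurd hc (mul_ne_zero ha (Nat.cast_add_one_ne_zero n))
  · obtain ⟨i, -, hi⟩ := Finset.prod_eq_zero_iff.mp hc
    rw [eval_sub, eval_X, eval_C, sub_eq_zero] at hi
    subst hi
    rcases hτ : τ i with _ | j
    · exact Or.inl (h.esc i hτ)
    · exact Or.inr ⟨p j, (h.sink j).1, z j, (h.sink j).2.1, (h.sink j).2.2, h.att i j hτ⟩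

/-- Let `n ≥ 1` and `a ≠ 0`.

(0) `poly a x` has degree `n + 1`, leading coefficient `a`, derivative `a (n + 1) ∏ (X - x i)` and
constant term `x none`.

(1) For every `s` the connectedness locus `M = Locus a n s` is compact and nonempty, and its Shilov
boundary is a closed boundary (so it is the smallest one).

(2) Every `x ∈ M` whose filled Julia set has zero area belongs to the Shilov boundary of `M`.

(3) Every `x ∈ M` is close to the Shilov boundary: for all `ε > C * sqrt (area (K (poly a x)))` some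
point of the Shilov boundary has all its coefficients within `ε` of those of `poly a x`. Here `C`
depends only on `n`, `a` and a bound for `s`.

(4) Hyperbolic polynomials of EVERY type are dense at EVERY point `x` of the Shilov boundary of `M`
(there is no assumption on the area of the Julia set): for each assignment `τ` of the critical points
to `k` sinks or to infinity, each `ε > 0` and each `N` there is `y` with the same sum of critical
points, with `‖y - x‖ < ε` and coefficients within `ε`, such that `poly a y` is hyperbolic of type `τ`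
with sinks `z j` whose exact periods `p j ≥ N` are distinct primes. -/
theorem result (n : ℕ) (hn : 1 ≤ n) (a : ℂ) (ha : a ≠ 0) :
    (∀ x : Option (Fin n) → ℂ, (poly a x).natDegree = n + 1 ∧ (poly a x).leadingCoeff = a ∧
      derivative (poly a x) = C (a * ((n : ℂ) + 1)) * ∏ i : Fin n, (X - C (x (some i))) ∧
      (poly a x).eval 0 = x none) ∧
    (∀ s : ℂ, IsCompact (Locus a n s) ∧ (Locus a n s).Nonempty ∧
      IsClosedBoundary (Locus a n s) (Shilov (Locus a n s))) ∧
    (∀ s : ℂ, ∀ x ∈ Locus a n s, volume (K (poly a x)) = 0 → x ∈ Shilov (Locus a n s)) ∧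
    (∀ b : ℝ, ∃ C : ℝ, 0 < C ∧ ∀ s : ℂ, ‖s‖ ≤ b → ∀ x ∈ Locus a n s,
      volume (K (poly a x)) < ⊤ ∧
      ∀ ε : ℝ, C * Real.sqrt (volume (K (poly a x))).toReal < ε →
        ∃ y ∈ Shilov (Locus a n s), ∀ j : ℕ, ‖(poly a y).coeff j - (poly a x).coeff j‖ < ε) ∧
    (∀ s : ℂ, ∀ x ∈ Shilov (Locus a n s), ∀ ε : ℝ, 0 < ε →
      ∀ (k : ℕ) (τ : Fin n → Option (Fin k)), (∀ j, ∃ i, τ i = some j) → ∀ N : ℕ,
      ∃ (y : Option (Fin n) → ℂ) (p : Fin k → ℕ) (z : Fin k → ℂ),
        ‖y - x‖ < ε ∧ (∀ j : ℕ, ‖(poly a y).coeff j - (poly a x).coeff j‖ < ε) ∧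
        ∑ i : Fin n, y (some i) = s ∧ Hyperbolic (poly a y) ∧ HasType a y τ p z ∧
        Function.Injective p ∧ (∀ j, (p j).Prime ∧ N ≤ p j) ∧
        ∀ j, Function.minimalPeriod (map (poly a y)) (z j) = p j) := by
  refine ⟨fun x => ⟨?_, ?_, ?_, ?_⟩, fun s => ⟨?_, ?_, ?_⟩, fun s x hx hvol => ?_, fun b => ?_,
    fun s x hx ε hε k τ hτ N => ?_⟩
  · exact Pool.Agent.H713R3.ZA.natDegree_fam ha n x
  · exact Pool.Agent.W820.BM.leadingCoeff_fam ha n x
  · exact Pool.Agent.H713R3.ZA.derivative_fam a n x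
  · exact Pool.Agent.W806.BM.fam_zero a n x
  · exact Pool.Agent.K4H45.SB.mc_compact ha hn s
  · exact Pool.Agent.K4H45.SB.mc_nonempty a hn s
  · exact Pool.Agent.K4H45.SB.sh_bd (Pool.Agent.K4H45.SB.mc_compact ha hn s)
      (Pool.Agent.K4H45.SB.mc_nonempty a hn s)
  · exact Pool.Agent.K4H45.SB.sh_zero ha hn hx hvol
  · obtain ⟨C, hC, h⟩ := Pool.Agent.K4H45.SB.sh_near ha hn (abs_nonneg b)
    exact ⟨C, hC, fun s hs x hx => h s (hs.trans (le_abs_self b)) x hx⟩
  · obtain ⟨y, p, z, r, h1, h2, h3, h4, h5⟩ :=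
      Pool.Agent.K4H45.SB.sh_main ha hn hx hε k τ hτ N
    exact ⟨y, p, z, h1, h2, h3, (hasType_of h4).hyperbolic ha, hasType_of h4, h4.inj, h4.prime, h5⟩

end Pool.Agent.Results.MP_28f8a1_an.ShilovBoundary
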