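import Pool.Agent.K4H46.TF.Fin

/-!
# Translation families: area and distance bounds, density of hyperbolicity at infinity

For a polynomial `T` of degree `d` the polynomials `T + t` have the critical points of `T`. The set
of the `t` for which some critical point of `T + t` does not escape has area at most
`4 π (d - 1) |a| ^ (-2 / (d - 1))`, where `a` is the leading coefficient, and this area tends to `0`
when the critical points of `T` spread. In consequence the hyperbolic polynomials become dense at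
infinity of the space of monic centred polynomials.
-/

set_option autoImplicit false

open Filter Topology Polynomial MeasureTheory Metric

namespace Pool.Agent.Results.MP_28f8a1_an.TranslationFamilies

/-- The polynomial as a self-map of the plane. -/
def map (T : ℂ[X]) : ℂ → ℂ := fun w : ℂ => T.eval w

/-- The orbit of `z` escapes to infinity. -/
def Escapes (T : ℂ[X]) (z : ℂ) : Prop :=
  Tendsto (fun k : ℕ => ‖(map T)^[k] z‖) atTop atTop

/-- The orbit of `z` is attracted by a sink (attracting periodic point) of `T`. -/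
def Attracted (T : ℂ[X]) (z : ℂ) : Prop :=
  ∃ n : ℕ, 0 < n ∧ ∃ x : ℂ, (map T)^[n] x = x ∧ ‖deriv ((map T)^[n]) x‖ < 1 ∧
    Tendsto (fun k : ℕ => (map T)^[n * k] z) atTop (𝓝 x)

/-- `T` is hyperbolic: every critical point escapes or is attracted by a sink. -/
def Hyperbolic (T : ℂ[X]) : Prop :=
  ∀ c : ℂ, (derivative T).eval c = 0 → Escapes T c ∨ Attracted T c

/-- `T` is in the shift locus: every critical point escapes. -/
def ShiftLocus (T : ℂ[X]) : Prop :=
  ∀ c : ℂ, (derivative T).eval c = 0 → Escapes T c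

/-- Let `2 ≤ d` and let `a` be the leading coefficient of `T`.
(1) For every `T` of degree `d` the set of the `t` with `T + t` outside the shift locus has area at
most `4 π (d - 1) |a| ^ (-2 / (d - 1))`; so every disc of radius larger than
`2 √(d - 1) |a| ^ (-1 / (d - 1))` contains a `t` with `T + t` in the shift locus.
(2) For critical points `c`, `c'` of `T` the area is at most
`K |a| ^ (-2 / (d - 1)) (1 + |a| ^ (1 / (d - 1)) |c - c'|) ^ (-2 / (d - 1))`, and the distance of each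
`T + t₀` to the shift locus, inside the family, is less than
`K |a| ^ (-1 / (d - 1)) (1 + |a| ^ (1 / (d - 1)) |c - c'|) ^ (-1 / (d - 1))`.
(3) The shift locus becomes dense at infinity of the space of monic centred polynomials.
(4), (5) The dependence on `a` is optimal, and the exponent in (2) is not larger than `1 / (d - 2)`.
(6) Polynomials in the shift locus are hyperbolic. -/
theorem result (d : ℕ) (hd : 2 ≤ d) :
    (∀ T : ℂ[X], T.natDegree = d →
      volume {t : ℂ | ¬ ShiftLocus (T + C t)} ≤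
        ENNReal.ofReal (4 * Real.pi * ((d : ℝ) - 1) *
          ‖T.leadingCoeff‖ ^ (-(2 / ((d : ℝ) - 1)))) ∧
      ∀ (t₀ : ℂ) (r : ℝ),
        2 * √((d : ℝ) - 1) * ‖T.leadingCoeff‖ ^ (-(1 / ((d : ℝ) - 1))) < r →
        ∃ t : ℂ, ‖t - t₀‖ < r ∧ ShiftLocus (T + C t)) ∧
    (∃ K : ℝ, 0 < K ∧ ∀ T : ℂ[X], T.natDegree = d → ∀ c c' : ℂ,
      (derivative T).eval c = 0 → (derivative T).eval c' = 0 →
      volume {t : ℂ | ¬ ShiftLocus (T + C t)} ≤
        ENNReal.ofReal (K * ‖T.leadingCoeff‖ ^ (-(2 / ((d : ℝ) - 1))) *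
          (1 + ‖T.leadingCoeff‖ ^ (1 / ((d : ℝ) - 1)) * ‖c - c'‖) ^ (-(2 / ((d : ℝ) - 1)))) ∧
      ∀ t₀ : ℂ, ∃ t : ℂ, ‖t - t₀‖ < K * ‖T.leadingCoeff‖ ^ (-(1 / ((d : ℝ) - 1))) *
          (1 + ‖T.leadingCoeff‖ ^ (1 / ((d : ℝ) - 1)) * ‖c - c'‖) ^ (-(1 / ((d : ℝ) - 1))) ∧
        ShiftLocus (T + C t)) ∧
    (∀ ε : ℝ, 0 < ε → ∃ A : ℝ, ∀ T : ℂ[X], T.Monic → T.natDegree = d → T.coeff (d - 1) = 0 →
      (∃ k : ℕ, A ≤ ‖T.coeff k‖) →
      volume {t : ℂ | ‖t‖ ≤ 1 ∧ ¬ ShiftLocus (T + C t)} ≤ ENNReal.ofReal ε ∧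
      ∃ t : ℂ, ‖t‖ < ε ∧ ShiftLocus (T + C t)) ∧
    (∀ a t : ℂ, a ≠ 0 → 4 * ‖t‖ ≤ ‖a‖ ^ (-(1 / ((d : ℝ) - 1))) →
      ¬ ShiftLocus (C a * X ^ d + C t)) ∧
    (3 ≤ d → ∀ b : ℂ, 1 ≤ ‖b‖ →
      (derivative (X ^ d + C b * X ^ (d - 1) : ℂ[X])).eval 0 = 0 ∧
      (derivative (X ^ d + C b * X ^ (d - 1) : ℂ[X])).eval (-(((d : ℂ) - 1) / d * b)) = 0 ∧
      ∀ t : ℂ, 8 * ‖t‖ ≤ ‖b‖ ^ (-(1 / ((d : ℝ) - 2))) →
        ¬ ShiftLocus (X ^ d + C b * X ^ (d - 1) + C t)) ∧
    (∀ T : ℂ[X], ShiftLocus T → Hyperbolic T) := by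
  have e : ∀ T : ℂ[X], ShiftLocus T ↔ Pool.Agent.K4H46.TF.Shift T := fun T => Iff.rfl
  refine ⟨fun T hT => ⟨?_, fun t₀ r hr => ?_⟩, ⟨Pool.Agent.K4H46.TF.K2 d, ?_, ?_⟩, ?_, ?_, ?_, ?_⟩
  · exact Pool.Agent.K4H46.TF.area1 hd hT
  · exact Pool.Agent.K4H46.TF.one hd hT t₀ hr
  · have h1 : (1 : ℝ) ≤ (d : ℝ) - 1 := by
      have : (2 : ℝ) ≤ d := by exact_mod_cast hd
      linarith
    have h2 := Pool.Agent.K4H46.TF.Cd_pos (d := d)
    unfold Pool.Agent.K4H46.TF.K2
    positivity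
  · intro T hT c c' hc hc'
    exact Pool.Agent.K4H46.TF.two hd hT hc hc'
  · intro ε hε
    exact Pool.Agent.K4H46.TF.three hd hε
  · intro a t ha ht
    exact Pool.Agent.K4H46.TF.four hd ha ht
  · intro h3 b hb
    obtain ⟨h1, h2⟩ := Pool.Agent.K4H46.TF.five_crit h3 b
    exact ⟨h1, h2, fun t ht => Pool.Agent.K4H46.TF.five h3 hb ht⟩
  · intro T hT c hc
    exact Or.inl (hT c hc)

end Pool.Agent.Results.MP_28f8a1_an.TranslationFamilies
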